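import Pool.Agent.Results.MP_cd1425_an.ReiterativeSum
import Pool.Agent.Results.MP_cd1425_an.UniformSum
import Pool.Agent.Y855.R7

set_option autoImplicit false

namespace Pool.Agent.Results.MP_cd1425_an.Thresholds

open Pool.Agent.H615R3 Filter Topology Set

/-- Answer to Q1 for all four properties, with exact thresholds in the two negative cases, over
`𝕂 = ℝ` or `ℂ`.
(1) Reiterative recurrence: the direct sum of finitely many (possibly different) reiteratively
recurrent operators on Fréchet spaces is reiteratively recurrent.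
(2) Uniform recurrence: the direct sum of finitely or countably many uniformly recurrent operators
on Fréchet spaces is uniformly recurrent.
(3) Frequent recurrence: for every `N` there is an operator `T` on a separable Banach space such
that for every `m` the direct sum of `m` copies of `T` is frequently recurrent if and only if
`m ≤ N`.
(4) `𝒰`-frequent recurrence: for every `N` there is an operator `T` on a separable Banach space
such that for every `m` the direct sum of `m` copies of `T` is `𝒰`-frequently recurrent if and only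
if `m ≤ N`. -/
theorem result (𝕂 : Type) [RCLike 𝕂] :
    (∀ (ι : Type) [Finite ι] (X : ι → Type) [∀ j, AddCommGroup (X j)] [∀ j, Module 𝕂 (X j)]
      [∀ j, UniformSpace (X j)] [∀ j, IsUniformAddGroup (X j)] [∀ j, ContinuousSMul 𝕂 (X j)]
      [∀ j, CompleteSpace (X j)] [∀ j, T2Space (X j)] [∀ j, (uniformity (X j)).IsCountablyGenerated]
      (T : ∀ j, X j →L[𝕂] X j), (∀ j, Dense {x : X j | IsRRec (T j) x}) →
        Dense {z : ∀ j, X j | IsRRec (fun (w : ∀ j, X j) (j : ι) => T j (w j)) z}) ∧
    (∀ (ι : Type) [Countable ι] [Nonempty ι] (X : ι → Type) [∀ j, AddCommGroup (X j)]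
      [∀ j, Module 𝕂 (X j)] [∀ j, UniformSpace (X j)] [∀ j, IsUniformAddGroup (X j)]
      [∀ j, ContinuousSMul 𝕂 (X j)] [∀ j, CompleteSpace (X j)] [∀ j, T2Space (X j)]
      [∀ j, (uniformity (X j)).IsCountablyGenerated]
      (T : ∀ j, X j →L[𝕂] X j), (∀ j, Dense {x : X j | IsURec (T j) x}) →
        Dense {z : ∀ j, X j | IsURec (fun (w : ∀ j, X j) (j : ι) => T j (w j)) z}) ∧
    (∀ N : ℕ, ∃ (X : Type) (_ : NormedAddCommGroup X) (_ : NormedSpace 𝕂 X) (_ : CompleteSpace X)
      (_ : TopologicalSpace.SeparableSpace X) (T : X →L[𝕂] X), ∀ m : ℕ,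
        (Dense {z : Fin m → X | IsFRec (fun (w : Fin m → X) (j : Fin m) => T (w j)) z} ↔
          m ≤ N)) ∧
    (∀ N : ℕ, ∃ (X : Type) (_ : NormedAddCommGroup X) (_ : NormedSpace 𝕂 X) (_ : CompleteSpace X)
      (_ : TopologicalSpace.SeparableSpace X) (T : X →L[𝕂] X), ∀ m : ℕ,
        (Dense {z : Fin m → X | IsUFRec (fun (w : Fin m → X) (j : Fin m) => T (w j)) z} ↔
          m ≤ N)) := by
  refine ⟨?_, ?_, Pool.Agent.Y855.RS.freq_threshold 𝕂, Pool.Agent.Y855.RS.ufreq_threshold 𝕂⟩
  · intro ι _ X _ _ _ _ _ _ _ _ T hT x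
    rw [mem_closure_iff_nhds]
    intro U hU
    rw [nhds_pi, Filter.mem_pi'] at hU
    obtain ⟨I, V, hV, hVU⟩ := hU
    have h1 : ∀ j : ι, ∃ a : X j, IsRRec (T j) a ∧ V j ∈ 𝓝 a := by
      intro j
      obtain ⟨a, ha1, ha2⟩ := (hT j).inter_nhds_nonempty (interior_mem_nhds.2 (hV j))
      exact ⟨a, ha1, mem_interior_iff_mem_nhds.1 ha2⟩
    choose a ha hVa using h1
    have h2 := (ReiterativeSum.result.{0, 0, 0} 𝕂).2 ι X (fun j => ⇑(T j))
      (fun j => (T j).continuous) a ha
    rw [mem_closure_iff_nhds] at h2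
    have h3 : U ∈ 𝓝 a := by
      rw [nhds_pi]
      exact Filter.mem_of_superset (Filter.pi_mem_pi I.finite_toSet fun j _ => hVa j) hVU
    exact h2 U h3
  · intro ι _ _ X _ _ _ _ _ _ _ _ T hT
    exact UniformSum.result T hT

end Pool.Agent.Results.MP_cd1425_an.Thresholds
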